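import Pool.Agent.Helper50.Tm.Goals2
import Pool.Agent.Helper42.Tm.TR1
import Pool.Agent.Helper5.Nm.Trans

/-!
Packet TW-FTR of MP_f619a5_ag.
-/

open CategoryTheory AlgebraicGeometry Limits TensorProduct MonoidalCategory
open scoped Obj

namespace Pool.Agent.Helper26.Tm

open Pool.Agent.Helper50.Tm Pool.Agent.Helper42.Tm
open Pool.Agent.Helper40.Nm (specOver homGroup specialFibre)

section basic

variable {R : Type} [CommRing R] {G : Over (Spec (CommRingCat.of R))} [GrpObj G]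

theorem hterm (X : Over (Spec (CommRingCat.of R))) (a b : X ⟶ SpecA R R) : a = b := by
  have hid : Spec.map (CommRingCat.ofHom (algebraMap R R)) = 𝟙 _ := by
    rw [← Spec.map_id]
    rfl
  ext1
  have ha := Over.w a
  have hb := Over.w b
  have h1 : a.left ≫ Spec.map (CommRingCat.ofHom (algebraMap R R)) = X.hom := ha
  have h2 : b.left ≫ Spec.map (CommRingCat.ofHom (algebraMap R R)) = X.hom := hb
  rw [hid] at h1 h2
  have h3 : a.left = X.hom := (Category.comp_id (Y := Spec (CommRingCat.of R)) a.left).symm.trans h1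
  have h4 : b.left = X.hom := (Category.comp_id (Y := Spec (CommRingCat.of R)) b.left).symm.trans h2
  exact h3.trans h4.symm

theorem exists_div (s : Pts G R) : ∃ φ : G ⟶ G, ∀ r : Pts G R, (r ≫ φ : Pts G R) = s * r⁻¹ := by
  have hid : Spec.map (CommRingCat.ofHom (algebraMap R R)) = 𝟙 _ := by
    rw [← Spec.map_id]
    rfl
  let z : G ⟶ SpecA R R := Over.homMk G.hom (by
    change G.hom ≫ Spec.map (CommRingCat.ofHom (algebraMap R R)) = G.hom
    rw [hid, Category.comp_id])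
  refine ⟨(z ≫ s) * (𝟙 G)⁻¹, fun r => ?_⟩
  rw [MonObj.comp_mul, GrpObj.comp_inv, Category.comp_id, ← Category.assoc,
    hterm _ (r ≫ z) (𝟙 _), Category.id_comp]

end basic

section loc

variable {R : Type} [CommRing R] [IsLocalRing R] {G : Over (Spec (CommRingCat.of R))} [GrpObj G]

theorem redk_mul (s t : Pts G R) : redk (s * t) = redk s * redk t := Pts.map_mul _ _ _

theorem redk_one : redk (1 : Pts G R) = 1 := Pts.map_one _

theorem redk_inv (s : Pts G R) : redk s⁻¹ = (redk s)⁻¹ :=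
  map_inv (Pts.mapHom (G := G) (Algebra.ofId R (IsLocalRing.ResidueField R))) s

theorem sc_mul (hCOMPG : COMPG) {s t : Pts G R} (hs : SameComp 1 s) (ht : SameComp 1 t) :
    SameComp 1 (s * t) := by
  have h := hCOMPG R G 1 s 1 t hs ht
  rwa [mul_one] at h

theorem sc_inv (hCOMPG : COMPG) {s : Pts G R} (hs : SameComp 1 s) : SameComp 1 s⁻¹ := by
  have h := hCOMPG R G 1 s s⁻¹ s⁻¹ hs (sc_refl _)
  rw [one_mul, mul_inv_cancel] at h
  exact sc_symm h

end loc

theorem gFTR (hNBH : NBH) (hLOC : LOC) (hCOMPG : COMPG) (hCHARTV : CHARTV) (hWEILE : WEILE)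
    (hWEILS : WEILS) (hTREX : TREX) (hNORM : NORM) (hDENS : DENS) (hCST : CST) : FTR := by
  intro K R M S N _ _ _ _ _ _ _ _ _ _ _ _ _ _ _ _ _ _ _ _ _ _ _ _ _ _ _ _ X _ _ 𝒢 ℋ Tr hTr F
    hF
  obtain ⟨huniq, -, -⟩ := hTREX K M N X
  have hTreq : ∀ x y, IsTr x y → Tr x = y := fun x y h => huniq _ _ ((hTr x).trans h.symm)
  have he2 : cpt (1 : Pts ℋ.G S) ∈ specialFibre ℋ.G := cpt_mem' _
  obtain ⟨V₀, heV, -, hV₀⟩ := hNBH S ℋ.G ℋ.smooth ⊤ (cpt (1 : Pts ℋ.G S)) trivial he2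
  obtain ⟨B, _, _, j, hsm, hj, he, hjV, hlift, -⟩ :=
    hCHARTV S ℋ.G ℋ.smooth V₀ (cpt (1 : Pts ℋ.G S)) heV
  obtain ⟨W, _, _, u, hfp, hu⟩ := hWEILE R S B
  have hfs := hWEILS R S B W u hu
  have hsmW : Algebra.Smooth R W := ⟨hfs, hfp⟩
  obtain ⟨v, hv⟩ := hNORM K R M S N X 𝒢 ℋ B W u j
  have hU : ∀ s : Pts ℋ.G S, cpt s ∈ Set.range j.left → SameComp 1 s := by
    intro s hs
    have h1 := hV₀ ⟨hjV hs, cpt_mem' s⟩
    have h2 : (((⊤ : ℋ.G.left.Opens) : Set ℋ.G.left) ∩ specialFibre ℋ.G) = specialFibre ℋ.G := by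
      rw [TopologicalSpace.Opens.coe_top, Set.univ_inter]
    rw [h2] at h1
    exact h1
  have hvw : ∀ w : W →ₐ[R] R, ∃ t : Pts X N, SameComp 1 (sec ℋ t) ∧ sec 𝒢 (Tr t) = v.map w := by
    intro w
    refine ⟨(sec ℋ).symm (j.map (weilPt u w)), ?_, ?_⟩
    · rw [MulEquiv.apply_symm_apply]
      exact hU _ ⟨_, rfl⟩
    · rw [hTreq _ _ (hv w), MulEquiv.apply_symm_apply]
  have htw : ∀ t : Pts X N, cpt (sec ℋ t) ∈ Set.range j.left →
      ∃ w : W →ₐ[R] R, sec 𝒢 (Tr t) = v.map w := by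
    intro t ht
    obtain ⟨ψ, hψ⟩ := hlift _ ht
    obtain ⟨w, hw⟩ := weil_surj u hu ψ
    refine ⟨w, ?_⟩
    have h1 := hTreq _ _ (hv w)
    rw [hw, hψ, MulEquiv.symm_apply_apply] at h1
    rw [h1, MulEquiv.apply_symm_apply]
  -- products of two points of the chart
  have hprod : ∀ x : Pts X N, SameComp 1 (sec ℋ x) → ∃ w w' : W →ₐ[R] R,
      sec 𝒢 (Tr x) = v.map w * v.map w' := by
    intro x hx
    obtain ⟨φ, hφ⟩ := exists_div (sec ℋ x)
    obtain ⟨r, hr1, hr2, -⟩ := hDENS S ℋ.G ℋ.smooth j.left.opensRange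
      (φ.left ⁻¹ᵁ j.left.opensRange) 1 (sec ℋ x) he (by
        show φ.left (cpt (sec ℋ x)) ∈ j.left.opensRange
        rw [← cpt_comp, hφ, mul_inv_cancel]
        exact he) hx
    have hr3 : cpt (sec ℋ x * r⁻¹) ∈ Set.range j.left := by
      have h1 : φ.left (cpt r) ∈ j.left.opensRange := hr2
      rw [← cpt_comp, hφ] at h1
      exact h1
    obtain ⟨w, hw⟩ := htw ((sec ℋ).symm (sec ℋ x * r⁻¹)) (by
      rw [MulEquiv.apply_symm_apply]
      exact hr3)
    obtain ⟨w', hw'⟩ := htw ((sec ℋ).symm r) (by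
      rw [MulEquiv.apply_symm_apply]
      exact hr1)
    refine ⟨w, w', ?_⟩
    rw [← hw, ← hw', ← map_mul, ← map_mul, ← map_mul, inv_mul_cancel_right,
      MulEquiv.symm_apply_apply]
  let A : Type := W ⊗[R] W
  have hsmA : Algebra.Smooth R A := by
    have : Algebra.Smooth W (W ⊗[R] W) := inferInstance
    exact Algebra.Smooth.comp R W (W ⊗[R] W)
  let iL : W →ₐ[R] A := Algebra.TensorProduct.includeLeft
  let iR : W →ₐ[R] A := Algebra.TensorProduct.includeRight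
  let v₂ : Pts 𝒢.G A := v.map iL * v.map iR
  have hv₂ : ∀ w w' : W →ₐ[R] R, v₂.map (Algebra.TensorProduct.productMap w w') =
      v.map w * v.map w' := by
    intro w w'
    rw [Pts.map_mul, ← Pts.map_comp, ← Pts.map_comp, Algebra.TensorProduct.productMap_left,
      Algebra.TensorProduct.productMap_right]
  have hofId : ∀ (c : Pts 𝒢.G R) (w : A →ₐ[R] R), (c.map (Algebra.ofId R A)).map w = c := by
    intro c w
    rw [← Pts.map_comp]
    have : w.comp (Algebra.ofId R A) = AlgHom.id R R := Subsingleton.elim _ _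
    rw [this, Pts.map_id]
  let vc : F → Pts 𝒢.G A := fun c => (sec 𝒢 c.1).map (Algebra.ofId R A) * v₂
  have hvc : ∀ (c : F) (w : A →ₐ[R] R), (vc c).map w = sec 𝒢 c.1 * v₂.map w := by
    intro c w
    rw [Pts.map_mul, hofId]
  obtain ⟨V, hVne, c, hVc⟩ := hCST R 𝒢.G 𝒢.smooth A F vc (by
    intro s hs
    obtain ⟨c, hc, x, hx, e⟩ := hF ((sec 𝒢).symm s) (by
      rw [MulEquiv.apply_symm_apply]
      exact hs)
    obtain ⟨w, w', hw⟩ := hprod x hx
    refine ⟨⟨c, hc⟩, Algebra.TensorProduct.productMap w w', ?_⟩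
    rw [MulEquiv.apply_symm_apply] at e
    rw [e, hvc, hv₂, map_mul, hw])
  let Q : Subgroup (Pts X M) :=
    { carrier := {y | ∃ x : Pts X N, SameComp 1 (sec ℋ x) ∧ redk (sec 𝒢 y) = redk (sec 𝒢 (Tr x))}
      mul_mem' := by
        rintro a b ⟨x, hx, ea⟩ ⟨y, hy, eb⟩
        refine ⟨x * y, ?_, ?_⟩
        · rw [map_mul]
          exact sc_mul hCOMPG hx hy
        · rw [map_mul, map_mul, map_mul, redk_mul, redk_mul, ea, eb]
      one_mem' := by
        refine ⟨1, ?_, ?_⟩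
        · rw [map_one]
          exact sc_refl _
        · rw [map_one, map_one, map_one]
      inv_mem' := by
        rintro a ⟨x, hx, ea⟩
        refine ⟨x⁻¹, ?_, ?_⟩
        · rw [map_inv]
          exact sc_inv hCOMPG hx
        · rw [map_inv, map_inv, map_inv, redk_inv, redk_inv, ea] }
  have hnorm : Q.Normal := by
    refine ⟨fun n hn g => ?_⟩
    have e : g * n * g⁻¹ = n := by
      rw [Pts.mul_comm g n, mul_assoc, mul_inv_cancel, mul_one]
    rw [e]
    exact hn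
  let Δ : Pts 𝒢.G R →* (Pts X M ⧸ Q) := (QuotientGroup.mk' Q).comp (sec 𝒢).symm.toMonoidHom
  have hΔ : ∀ s : Pts 𝒢.G R, cpt s ∈ V → Δ s = QuotientGroup.mk' Q c.1 := by
    intro s hs
    obtain ⟨w, hw⟩ := hVc s hs
    obtain ⟨t₁, ht₁, e₁⟩ := hvw (w.comp iL)
    obtain ⟨t₂, ht₂, e₂⟩ := hvw (w.comp iR)
    refine (QuotientGroup.eq).2 ?_
    show ((sec 𝒢).symm s)⁻¹ * c.1 ∈ Q
    rw [← Subgroup.inv_mem_iff, mul_inv_rev, inv_inv]
    refine ⟨t₁ * t₂, ?_, ?_⟩
    · rw [map_mul]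
      exact sc_mul hCOMPG ht₁ ht₂
    · rw [map_mul, MulEquiv.apply_symm_apply, redk_mul, hw, hvc, ← redk_mul, map_inv,
        inv_mul_cancel_left, map_mul, map_mul, e₁, e₂]
      congr 1
      rw [Pts.map_mul, ← Pts.map_comp, ← Pts.map_comp]
  intro y hy
  have hfin := hLOC R 𝒢.G 𝒢.smooth _ Δ V _ hVne hΔ 1 (sec 𝒢 y) hy
  rw [map_one] at hfin
  have h6 : (sec 𝒢).symm (sec 𝒢 y) ∈ Q := (QuotientGroup.eq_one_iff _).1 hfin.symm
  rw [MulEquiv.symm_apply_apply] at h6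
  exact h6

end Pool.Agent.Helper26.Tm
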